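import Pool.Agent.Helper20.CE.Stmt

/-!
# Coarse embeddability and amenable normal subgroups

Let `N` be a normal subgroup of `Γ` and let `v` be a homomorphism of `Λ` into the unitary group of `L(Γ)` which tends
weakly to zero at infinity, such that each `v s` is supported on one coset of `N`, or `N` is relatively icc in `Γ` and the
`v s` normalise `L(N)`. Then `N`-equivariant coarse embeddability of `Γ` gives equivariant coarse embeddability of `Λ`,
and if `N` is amenable then coarse embeddability of `Γ` gives coarse embeddability of `Λ`. In particular this holds for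
a `*`-isomorphism `Φ` of `L(Γ)` onto `L(Λ)` which carries the grading of `L(Γ)` by `Γ/N` to that of `L(Λ)` by `Λ/M`, or
which carries `L(N)` onto `L(M)`, `N` relatively icc in `Γ`.
-/

set_option autoImplicit false

namespace Pool.Agent.Results.MP_501efe_an.AmenableNormal

open Pool.MP_501efe_an.H20 Pool.MP_501efe_an.H20.Stmt

theorem result :
    -- (1) homomorphisms into the unitary group
    (∀ (Γ Λ : Type) [Group Γ] [Group Λ] [Countable Γ] [Countable Λ] (N : Subgroup Γ) [N.Normal]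
      (v : Λ → BH Γ), Stmt.Rep v →
      ((∀ s, ∃ g : Γ, Stmt.SuppOn {x | g⁻¹ * x ∈ N} (v s)) ∨
        (RelIcc N ∧ ∀ s, ∀ T ∈ VN Γ, Stmt.SuppOn (N : Set Γ) T → Stmt.SuppOn (N : Set Γ) (v s * T * v s⁻¹))) →
      ∃ M : Subgroup Λ, (∀ s, s ∈ M ↔ Stmt.SuppOn (N : Set Γ) (v s)) ∧ (EquivCE N → EquivCE M) ∧
        (Amen N → CE Γ → CE Λ)) ∧
    -- (2) isomorphisms of the group von Neumann algebras
    (∀ (Γ Λ : Type) [Group Γ] [Group Λ] [Countable Γ] [Countable Λ] (N : Subgroup Γ) [N.Normal]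
      (M : Subgroup Λ) [M.Normal] (Φ : BH Γ → BH Λ), Stmt.IsIso Φ →
      ((∃ σ : Γ ⧸ N ≃* Λ ⧸ M, ∀ (g : Γ ⧸ N), ∀ T ∈ VN Γ,
          (Stmt.SuppOn {x : Γ | (x : Γ ⧸ N) = g} T ↔ Stmt.SuppOn {s : Λ | (s : Λ ⧸ M) = σ g} (Φ T))) ∨
        (RelIcc N ∧ ∀ T ∈ VN Γ, (Stmt.SuppOn (N : Set Γ) T ↔ Stmt.SuppOn (M : Set Λ) (Φ T)))) →
      (EquivCE N → EquivCE M) ∧ (Amen N → CE Γ → CE Λ)) :=
  ⟨fun _ _ _ _ _ _ N _ v hv h => Stmt.main1 N v hv h, fun _ _ _ _ _ _ N _ M _ Φ hΦ h => Stmt.main2 N M Φ hΦ h⟩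

end Pool.Agent.Results.MP_501efe_an.AmenableNormal
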