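import Pool.Agent.Helper48.CE.Final

/-!
# Coarse embeddability and group von Neumann algebras

For every countable group `Γ` in the class `Cls` - generated by the groups with the weak Haagerup
property with constant one (in particular the Haagerup groups and the groups with
Cowling-Haagerup constant one) under subgroups, direct products, directed unions and extensions
with exact quotient of Cowling-Haagerup constant one - every countable group `Λ` whose group von
Neumann algebra is isomorphic to that of `Γ` coarsely embeds into Hilbert space. More generally
this holds for every countable group of unitaries of the group von Neumann algebra of `Γ` that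
tends weakly to zero.
-/

namespace Pool.Agent.Results.MP_501efe_an.CoarseInvariance

open Pool.Agent.Helper48.CE.Stmt

theorem result :
    -- the main theorem
    (∀ (Γ Λ : Type) [Group Γ] [Countable Γ] [Group Λ] [Countable Λ], Cls Γ →
      IsoGroupVN Γ Λ ∨ MapsMixing Λ Γ → CoarselyEmbeds Λ) ∧
    -- the class contains the Haagerup groups and the groups with Cowling-Haagerup constant one
    (∀ (G : Type) [Group G], IsHaagerup G ∨ CMAP G → Cls G) :=
  ⟨fun _ _ _ _ _ _ hΓ hΛ => main hΓ hΛ, fun G _ h => .wh G (h.elim wh_of_haagerup wh_of_cmap)⟩

end Pool.Agent.Results.MP_501efe_an.CoarseInvariance
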